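import Mathlib

/-!
Composite `n` for which `f(n) = min_{1 < k ≤ n/2} gcd(n, C(n,k))` equals `n / P(n)`.
-/

namespace Pool.Agent.Results.MP_35d543_nt.CofactorCriterion

/-- `f(n)`: the least value of `gcd(n, C(n,k))` over `2 ≤ k ≤ n/2`. -/
noncomputable def f (n : ℕ) : ℕ :=
  sInf {g : ℕ | ∃ k : ℕ, 2 ≤ k ∧ 2 * k ≤ n ∧ g = Nat.gcd n (n.choose k)}

/-- `P(n)`: the largest prime factor of `n`. -/
def P (n : ℕ) : ℕ := n.primeFactors.sup id

theorem f_le {n k : ℕ} (h2 : 2 ≤ k) (hk : 2 * k ≤ n) : f n ≤ Nat.gcd n (n.choose k) :=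
  Nat.sInf_le ⟨k, h2, hk, rfl⟩

theorem f_mem {n : ℕ} (hn : 4 ≤ n) :
    ∃ k : ℕ, 2 ≤ k ∧ 2 * k ≤ n ∧ f n = Nat.gcd n (n.choose k) := by
  have hne : {g : ℕ | ∃ k : ℕ, 2 ≤ k ∧ 2 * k ≤ n ∧ g = Nat.gcd n (n.choose k)}.Nonempty :=
    ⟨_, 2, le_refl _, by omega, rfl⟩
  exact Nat.sInf_mem hne

theorem le_P {n q : ℕ} (hn : n ≠ 0) (hq : q.Prime) (hd : q ∣ n) : q ≤ P n := by
  have : q ∈ n.primeFactors := Nat.mem_primeFactors.mpr ⟨hq, hd, hn⟩
  exact Finset.le_sup (f := id) this

theorem P_mem {n : ℕ} (hn : 2 ≤ n) : (P n).Prime ∧ P n ∣ n := by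
  have hne : n.primeFactors.Nonempty := Nat.nonempty_primeFactors.mpr hn
  obtain ⟨q, hq, hq2⟩ := Finset.exists_mem_eq_sup n.primeFactors hne id
  have : P n = q := hq2
  rw [this]
  exact ⟨Nat.prime_of_mem_primeFactors hq, Nat.dvd_of_mem_primeFactors hq⟩

/-- If all prime factors of `m` are at most `m < p`, then `P (m p) = p`. -/
theorem P_mul {m p : ℕ} (hm : 0 < m) (hp : p.Prime) (hmp : ∀ q, q.Prime → q ∣ m → q ≤ p) :
    P (m * p) = p := by
  apply le_antisymm
  · apply Finset.sup_le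
    intro q hq
    have hq1 := Nat.prime_of_mem_primeFactors hq
    have hq2 := Nat.dvd_of_mem_primeFactors hq
    rcases (hq1.dvd_mul).mp hq2 with h | h
    · exact hmp q hq1 h
    · exact Nat.le_of_dvd hp.pos h
  · exact le_P (by have := hp.pos; positivity) hp (Dvd.intro_left m rfl)

/-- If the prime `p` does not divide `k`, then it divides `C(m p, k)`. -/
theorem dvd_choose_of_not_dvd {m p k : ℕ} (hp : p.Prime) (hk : ¬ p ∣ k) :
    p ∣ (m * p).choose k := by
  rcases Nat.eq_zero_or_pos k with rfl | hk0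
  · exact absurd (dvd_zero p) hk
  rcases Nat.eq_zero_or_pos (m * p) with h0 | h0
  · rw [h0, Nat.choose_eq_zero_of_lt hk0]; exact dvd_zero p
  · have h := Nat.add_one_mul_choose_eq (m * p - 1) (k - 1)
    have e1 : m * p - 1 + 1 = m * p := by omega
    have e2 : k - 1 + 1 = k := by omega
    rw [e1, e2] at h
    have hd : p ∣ (m * p).choose k * k := by
      rw [← h]
      exact Dvd.dvd.mul_right (Dvd.intro_left m rfl) _
    exact (hp.dvd_mul.mp hd).resolve_right hk

/-- If `j ≤ m < p` with `p` prime, then `p` does not divide `C(m p, j p)`. -/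
theorem not_dvd_choose_mul {m p j : ℕ} (hp : p.Prime) (hmp : m < p) (hj : j ≤ m) :
    ¬ p ∣ (m * p).choose (j * p) := by
  have := Fact.mk hp
  intro hd
  have h := Choose.choose_modEq_choose_mod_mul_choose_div_nat (n := m * p) (k := j * p) (p := p)
  rw [Nat.mul_mod_left, Nat.mul_mod_left, Nat.mul_div_cancel _ hp.pos,
    Nat.mul_div_cancel _ hp.pos, Nat.choose_zero_right, one_mul] at h
  have h2 : p ∣ m.choose j := (Nat.ModEq.dvd_iff h (dvd_refl p)).mp hd
  have h3 : p ∣ m.factorial := by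
    rw [← Nat.choose_mul_factorial_mul_factorial hj]
    exact (h2.mul_right _).mul_right _
  exact absurd ((Nat.Prime.dvd_factorial hp).mp h3) (by omega)

/-- The criterion. -/
theorem criterion {m p : ℕ} (hm : 2 ≤ m) (hp : p.Prime) (hmp : m < p) :
    f (m * p) = m ↔ ∀ j, 1 ≤ j → j < m → m ∣ (m * p).choose (j * p) := by
  have hp2 := hp.two_le
  have hn4 : 4 ≤ m * p := by nlinarith
  have hgcd : ∀ j, j ≤ m → Nat.gcd (m * p) ((m * p).choose (j * p)) ∣ m := by
    intro j hj
    have hcop : Nat.Coprime (Nat.gcd (m * p) ((m * p).choose (j * p))) p := by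
      rw [Nat.coprime_comm, Nat.Prime.coprime_iff_not_dvd hp]
      intro h
      exact not_dvd_choose_mul hp hmp hj (h.trans (Nat.gcd_dvd_right _ _))
    exact hcop.dvd_of_dvd_mul_right (Nat.gcd_dvd_left _ _)
  constructor
  · intro hf
    -- first for `2 j ≤ m`
    have key : ∀ j, 1 ≤ j → 2 * j ≤ m → m ∣ (m * p).choose (j * p) := by
      intro j hj1 hj2
      have h1 : f (m * p) ≤ Nat.gcd (m * p) ((m * p).choose (j * p)) :=
        f_le (by nlinarith) (by nlinarith)
      have h2 := hgcd j (by omega)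
      have h3 : Nat.gcd (m * p) ((m * p).choose (j * p)) ≤ m := Nat.le_of_dvd (by omega) h2
      have h4 : Nat.gcd (m * p) ((m * p).choose (j * p)) = m := le_antisymm h3 (by omega)
      calc m = Nat.gcd (m * p) ((m * p).choose (j * p)) := h4.symm
        _ ∣ _ := Nat.gcd_dvd_right _ _
    intro j hj1 hj2
    by_cases h : 2 * j ≤ m
    · exact key j hj1 h
    · have h' := key (m - j) (by omega) (by omega)
      have e : (m - j) * p = m * p - j * p := Nat.sub_mul _ _ _
      rw [e, Nat.choose_symm (by nlinarith)] at h'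
      exact h'
  · intro h
    obtain ⟨k, hk2, hkn, hk⟩ := f_mem hn4
    apply le_antisymm
    · have h1 : f (m * p) ≤ Nat.gcd (m * p) ((m * p).choose (1 * p)) :=
        f_le (by omega) (by nlinarith)
      exact h1.trans (Nat.le_of_dvd (by omega) (hgcd 1 (by omega)))
    · rw [hk]
      have hpos : 0 < Nat.gcd (m * p) ((m * p).choose k) := Nat.gcd_pos_of_pos_left _ (by omega)
      by_cases hd : p ∣ k
      · obtain ⟨j, rfl⟩ := hd
        have hj1 : 1 ≤ j := by
          rcases Nat.eq_zero_or_pos j with rfl | h0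
          · omega
          · exact h0
        have hj2 : j < m := by
          by_contra hc
          have : m * p ≤ p * j := by nlinarith
          omega
        have hdv := h j hj1 hj2
        rw [mul_comm j p] at hdv
        exact Nat.le_of_dvd hpos (Nat.dvd_gcd (Dvd.intro _ rfl) hdv)
      · have h1 : p ∣ (m * p).choose k := dvd_choose_of_not_dvd hp hd
        have : p ∣ Nat.gcd (m * p) ((m * p).choose k) := Nat.dvd_gcd (Dvd.intro_left _ rfl) h1
        exact hmp.le.trans (Nat.le_of_dvd hpos this)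

/-- If `p ≡ -1` modulo `m^(2m)`, then `m` divides every `C(m p, j p)` with `0 < j < m`. -/
theorem dvd_of_modEq {m p : ℕ} (hm : 2 ≤ m) (hp : 0 < p) (h : m ^ (2 * m) ∣ p + 1) :
    ∀ j, 1 ≤ j → j < m → m ∣ (m * p).choose (j * p) := by
  intro j hj1 hj2
  have hle : j * p ≤ m * p := Nat.mul_le_mul_right p hj2.le
  have hne : (m * p).choose (j * p) ≠ 0 := (Nat.choose_pos hle).ne'
  rw [← Nat.factorization_le_iff_dvd (by omega) hne]
  intro q
  by_cases hq : q.Prime
  swap
  · simp [Nat.factorization_eq_zero_of_not_prime _ hq]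
  by_cases hqm : q ∣ m
  swap
  · rw [Nat.factorization_eq_zero_of_not_dvd hqm]; exact Nat.zero_le _
  have hq2 := hq.two_le
  set b := max (2 * m) (Nat.log q (m * p) + 1) with hb
  rw [Nat.factorization_choose hq hle (b := b) (by rw [hb]; exact lt_max_of_lt_right (Nat.lt_succ_self _))]
  have hsub : Finset.Ico m (2 * m) ⊆ Finset.filter
      (fun i => q ^ i ≤ (j * p) % q ^ i + (m * p - j * p) % q ^ i) (Finset.Ico 1 b) := by
    intro i hi
    rw [Finset.mem_Ico] at hi
    rw [Finset.mem_filter, Finset.mem_Ico]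
    refine ⟨⟨by omega, lt_of_lt_of_le hi.2 (le_max_left _ _)⟩, ?_⟩
    have hmi : m < q ^ i := by
      calc m < 2 ^ m := Nat.lt_two_pow_self
        _ ≤ q ^ m := Nat.pow_le_pow_left hq2 m
        _ ≤ q ^ i := Nat.pow_le_pow_right (by omega) hi.1
    have hdvd : q ^ i ∣ p + 1 := by
      refine (pow_dvd_pow q hi.2.le).trans (dvd_trans ?_ h)
      exact pow_dvd_pow_of_dvd hqm _
    have hmod : ∀ t, 1 ≤ t → t ≤ m → (t * p) % q ^ i = q ^ i - t := by
      intro t ht1 ht2
      obtain ⟨c, hc⟩ := hdvd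
      have hc0 : 1 ≤ c := by
        rcases Nat.eq_zero_or_pos c with rfl | h0
        · omega
        · exact h0
      -- t * p + t = q^i * (c * t)
      have e : t * p = (q ^ i - t) + q ^ i * (c * t - 1) := by
        have h1 : t * p + t = q ^ i * (c * t) := by
          calc t * p + t = t * (p + 1) := by ring
            _ = q ^ i * (c * t) := by rw [hc]; ring
        have h2 : 1 ≤ c * t := Nat.mul_pos hc0 ht1
        have h3 : q ^ i * (c * t - 1) = q ^ i * (c * t) - q ^ i := by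
          rw [Nat.mul_sub, Nat.mul_one]
        have h4 : q ^ i ≤ q ^ i * (c * t) := Nat.le_mul_of_pos_right _ h2
        omega
      rw [e, Nat.add_mul_mod_self_left, Nat.mod_eq_of_lt]
      omega
    have e2 : m * p - j * p = (m - j) * p := (Nat.sub_mul _ _ _).symm
    rw [e2, hmod j hj1 hj2.le, hmod (m - j) (by omega) (by omega)]
    omega
  have hcard := Finset.card_le_card hsub
  rw [Nat.card_Ico] at hcard
  have hfac : m.factorization q ≤ m := by
    exact (Nat.factorization_lt q (by omega)).le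
  omega

theorem infinite_primes {m : ℕ} (hm : 2 ≤ m) :
    {p : ℕ | p.Prime ∧ m < p ∧ f (m * p) = m}.Infinite := by
  rw [Set.infinite_iff_exists_gt]
  intro N
  have hM : m ^ (2 * m) ≠ 0 := by positivity
  have hM1 : 1 ≤ m ^ (2 * m) := Nat.one_le_iff_ne_zero.mpr hM
  obtain ⟨p, hpN, hp, hmod⟩ := Nat.forall_exists_prime_gt_and_modEq (max N m)
    (q := m ^ (2 * m)) (a := m ^ (2 * m) - 1) hM (by
      rcases Nat.eq_or_lt_of_le hM1 with h | h
      · rw [← h]; simp
      · exact (Nat.coprime_self_sub_left (by omega)).mpr (by simp))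
  have hdvd : m ^ (2 * m) ∣ p + 1 := by
    have h1 : p + 1 ≡ m ^ (2 * m) - 1 + 1 [MOD m ^ (2 * m)] := Nat.ModEq.add_right 1 hmod
    rw [Nat.sub_add_cancel hM1] at h1
    exact (Nat.modEq_zero_iff_dvd.mp (h1.trans (Nat.modEq_zero_iff_dvd.mpr (dvd_refl _))))
  have hmp : m < p := lt_of_le_of_lt (le_max_right _ _) hpN
  refine ⟨p, ⟨hp, hmp, ?_⟩, lt_of_le_of_lt (le_max_left _ _) hpN⟩
  exact (criterion hm hp hmp).mpr (dvd_of_modEq hm hp.pos hdvd)

/-- For a prime `q`, `q` does not divide `C(q^a t, q^a)` unless it divides `t`. -/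
theorem not_dvd_choose_pow {q a t : ℕ} (hq : q.Prime) (ht : ¬ q ∣ t) :
    ¬ q ∣ (q ^ a * t).choose (q ^ a) := by
  have := Fact.mk hq
  intro hd
  have h := Choose.choose_modEq_choose_mul_prod_range_choose (n := q ^ a * t) (k := q ^ a)
    (p := q) a
  have hpos : 0 < q ^ a := Nat.pow_pos hq.pos
  have hprod : ∏ i ∈ Finset.range a,
      (Nat.choose (q ^ a * t / q ^ i % q) (q ^ a / q ^ i % q)) = 1 := by
    apply Finset.prod_eq_one
    intro i hi
    rw [Finset.mem_range] at hi
    have : q ^ a / q ^ i % q = 0 := by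
      rw [Nat.pow_div hi.le hq.pos]
      exact Nat.mod_eq_zero_of_dvd (dvd_pow_self q (by omega))
    rw [this]; simp
  rw [hprod, Nat.cast_one, mul_one, Nat.mul_div_cancel_left _ hpos, Nat.div_self hpos,
    Nat.choose_one_right] at h
  have h2 : (q ^ a * t).choose (q ^ a) ≡ t [MOD q] := by
    exact_mod_cast (Int.natCast_modEq_iff.mp h)
  exact ht ((Nat.ModEq.dvd_iff h2 (dvd_refl q)).mp hd)

/-- If `q^a` exactly divides `n` and `n ≠ q^a`, then `f(n) ≤ n / q^a`. -/
theorem f_le_cofactor {q a t : ℕ} (hq : q.Prime) (ha : 1 ≤ a) (ht : ¬ q ∣ t) (ht2 : 2 ≤ t) :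
    f (q ^ a * t) ≤ t := by
  have hk2 : 2 ≤ q ^ a := by
    calc 2 ≤ q := hq.two_le
      _ = q ^ 1 := (pow_one q).symm
      _ ≤ q ^ a := Nat.pow_le_pow_right hq.pos ha
  have h1 : f (q ^ a * t) ≤ Nat.gcd (q ^ a * t) ((q ^ a * t).choose (q ^ a)) :=
    f_le hk2 (by nlinarith)
  refine h1.trans (Nat.le_of_dvd (by omega) ?_)
  have hcop : Nat.Coprime (Nat.gcd (q ^ a * t) ((q ^ a * t).choose (q ^ a))) (q ^ a) := by
    apply Nat.Coprime.pow_right
    rw [Nat.coprime_comm, Nat.Prime.coprime_iff_not_dvd hq]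
    intro h
    exact not_dvd_choose_pow hq ht (h.trans (Nat.gcd_dvd_right _ _))
  exact hcop.dvd_of_dvd_mul_left (Nat.gcd_dvd_left _ _)

/-- `f(p^b) ≤ p` for `b ≥ 2`. -/
theorem f_prime_pow_le {p b : ℕ} (hp : p.Prime) (hb : 2 ≤ b) : f (p ^ b) ≤ p := by
  have hp2 := hp.two_le
  obtain ⟨c, rfl⟩ : ∃ c, b = c + 1 := ⟨b - 1, by omega⟩
  have hc : 1 ≤ c := by omega
  have hk2 : 2 ≤ p ^ c := by
    calc 2 ≤ p ^ 1 := by simpa using hp2
      _ ≤ p ^ c := Nat.pow_le_pow_right hp.pos hc
  have hkn : p ^ c ≤ p ^ (c + 1) := Nat.pow_le_pow_right hp.pos (Nat.le_succ c)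
  have h1 : f (p ^ (c + 1)) ≤ Nat.gcd (p ^ (c + 1)) ((p ^ (c + 1)).choose (p ^ c)) :=
    f_le hk2 (by rw [pow_succ]; nlinarith)
  refine h1.trans ?_
  have hfac := Nat.factorization_choose_prime_pow hp hkn (by positivity : p ^ c ≠ 0)
  rw [Nat.Prime.factorization_pow hp, Finsupp.single_eq_same, Nat.add_sub_cancel_left] at hfac
  obtain ⟨e, he, hg⟩ := (Nat.dvd_prime_pow hp).mp
    (Nat.gcd_dvd_left (p ^ (c + 1)) ((p ^ (c + 1)).choose (p ^ c)))
  have hne : (p ^ (c + 1)).choose (p ^ c) ≠ 0 := (Nat.choose_pos hkn).ne'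
  have hd : p ^ e ∣ (p ^ (c + 1)).choose (p ^ c) := by
    rw [← hg]; exact Nat.gcd_dvd_right _ _
  have he1 : e ≤ 1 := by
    rw [← hfac]
    exact (hp.pow_dvd_iff_le_factorization hne).mp hd
  rw [hg]
  calc p ^ e ≤ p ^ 1 := Nat.pow_le_pow_right hp.pos he1
    _ = p := pow_one p

/-- Necessary structure of the composite `n` with `f(n) = n / P(n)`. -/
theorem structure_of_eq {n : ℕ} (hn2 : 2 ≤ n) (hcomp : ¬ n.Prime) (hf : f n = n / P n) :
    n = P n ^ 2 ∨ (¬ P n ^ 2 ∣ n ∧ ∀ q a : ℕ, q.Prime → q ^ a ∣ n → q ^ a ≤ P n) := by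
  obtain ⟨hp, hpn⟩ := P_mem hn2
  set p := P n with hpdef
  have hn0 : n ≠ 0 := by omega
  have hp2 := hp.two_le
  have hfp : f n * p = n := by rw [hf]; exact Nat.div_mul_cancel hpn
  obtain ⟨b, s, hs, hns⟩ := Nat.exists_eq_pow_mul_and_not_dvd hn0 p hp.ne_one
  have hb1 : 1 ≤ b := by
    by_contra hb0
    have : b = 0 := by omega
    rw [this, pow_zero, one_mul] at hns
    rw [hns] at hpn
    exact hs hpn
  rcases Nat.lt_or_ge s 2 with hs2 | hs2
  · left
    have hs1 : s = 1 := by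
      rcases Nat.eq_zero_or_pos s with h0 | h0
      · rw [h0, mul_zero] at hns; omega
      · omega
    rw [hs1, mul_one] at hns
    have hb2 : 2 ≤ b := by
      by_contra hb
      have : b = 1 := by omega
      rw [this, pow_one] at hns
      rw [hns] at hcomp
      exact hcomp hp
    have h1 : f n ≤ p := by rw [hns]; exact f_prime_pow_le hp hb2
    have h2 : n ≤ p * p := by
      calc n = f n * p := hfp.symm
        _ ≤ p * p := Nat.mul_le_mul_right p h1
    have h3 : p ^ 2 ≤ n := by rw [hns]; exact Nat.pow_le_pow_right hp.pos hb2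
    nlinarith
  · right
    have h1 : f n ≤ s := by rw [hns]; exact f_le_cofactor hp hb1 hs hs2
    have hb : b = 1 := by
      by_contra hb
      have hb2 : 2 ≤ b := by omega
      have h3 : p ^ 2 ≤ p ^ b := Nat.pow_le_pow_right hp.pos hb2
      have h4 : p ^ b * s ≤ s * p := by
        calc p ^ b * s = n := hns.symm
          _ = f n * p := hfp.symm
          _ ≤ s * p := Nat.mul_le_mul_right p h1
      nlinarith
    refine ⟨?_, ?_⟩
    · rw [hns, hb, pow_one, pow_two]
      intro h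
      exact hs (Nat.dvd_of_mul_dvd_mul_left hp.pos h)
    · intro q a hq hqa
      obtain ⟨A, t, ht, hnt⟩ := Nat.exists_eq_pow_mul_and_not_dvd hn0 q hq.ne_one
      have haA : a ≤ A := by
        by_contra hc
        have h5 : q ^ (A + 1) ∣ q ^ A * t := by
          rw [← hnt]
          exact (pow_dvd_pow q (by omega)).trans hqa
        rw [pow_succ] at h5
        exact ht (Nat.dvd_of_mul_dvd_mul_left (Nat.pow_pos hq.pos) h5)
      rcases Nat.eq_zero_or_pos A with hA | hA
      · have : a = 0 := by omega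
        rw [this, pow_zero]; omega
      have ht2 : 2 ≤ t := by
        by_contra hc
        have ht1 : t = 1 := by
          rcases Nat.eq_zero_or_pos t with h0 | h0
          · rw [h0, mul_zero] at hnt; omega
          · omega
        rw [ht1, mul_one] at hnt
        have hpq : p = q := by
          have : p ∣ q ^ A := by rw [← hnt]; exact hpn
          exact (Nat.prime_dvd_prime_iff_eq hp hq).mp (hp.dvd_of_dvd_pow this)
        have hsd : s ∣ q ^ A := by rw [← hnt, hns]; exact Dvd.intro_left _ rfl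
        obtain ⟨e, -, he⟩ := (Nat.dvd_prime_pow hq).mp hsd
        rcases Nat.eq_zero_or_pos e with h0 | h0
        · rw [h0, pow_zero] at he; omega
        · apply hs
          rw [he, hpq]
          exact dvd_pow_self q (by omega)
      have h6 : f n ≤ t := by rw [hnt]; exact f_le_cofactor hq hA ht ht2
      have h7 : q ^ A * t ≤ p * t := by
        calc q ^ A * t = n := hnt.symm
          _ = f n * p := hfp.symm
          _ ≤ t * p := Nat.mul_le_mul_right p h6
          _ = p * t := mul_comm _ _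
      have h8 : q ^ A ≤ p := Nat.le_of_mul_le_mul_right h7 (by omega)
      exact (Nat.pow_le_pow_right hq.pos haA).trans h8

theorem div_P {m p : ℕ} (hm : 0 < m) (hp : p.Prime) (hmp : ∀ q, q.Prime → q ∣ m → q ≤ p) :
    m * p / P (m * p) = m := by
  rw [P_mul hm hp hmp, Nat.mul_div_cancel _ hp.pos]

/-- Complete description for `n` with exactly two prime factors. -/
theorem two_primes {q p a b : ℕ} (hq : q.Prime) (hp : p.Prime) (hqp : q < p) (ha : 1 ≤ a)
    (hb : 1 ≤ b) :
    (f (q ^ a * p ^ b) = q ^ a * p ^ b / P (q ^ a * p ^ b) ↔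
      b = 1 ∧ q ^ a < p ∧ ∀ j, 1 ≤ j → j < q ^ a → q ^ a ∣ (q ^ a * p).choose (j * p)) := by
  have hm2 : 2 ≤ q ^ a := by
    calc 2 ≤ q ^ 1 := by simpa using hq.two_le
      _ ≤ q ^ a := Nat.pow_le_pow_right hq.pos ha
  have hdivs : ∀ r, r.Prime → r ∣ q ^ a → r ≤ p := by
    intro r hr hrd
    have := (Nat.prime_dvd_prime_iff_eq hr hq).mp (hr.dvd_of_dvd_pow hrd)
    omega
  constructor
  · intro hf
    have hPn : P (q ^ a * p ^ b) = p := by
      obtain ⟨c, rfl⟩ : ∃ c, b = c + 1 := ⟨b - 1, by omega⟩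
      rw [pow_succ, ← mul_assoc]
      apply P_mul (Nat.mul_pos (Nat.pow_pos hq.pos) (Nat.pow_pos hp.pos)) hp
      intro r hr hrd
      rcases (hr.dvd_mul).mp hrd with h | h
      · exact hdivs r hr h
      · exact ((Nat.prime_dvd_prime_iff_eq hr hp).mp (hr.dvd_of_dvd_pow h)).le
    have hn2 : 2 ≤ q ^ a * p ^ b := by
      have : 1 ≤ p ^ b := Nat.pow_pos hp.pos
      nlinarith
    have hcomp : ¬ (q ^ a * p ^ b).Prime := by
      apply Nat.not_prime_mul
      · omega
      · have : p ^ 1 ≤ p ^ b := Nat.pow_le_pow_right hp.pos hb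
        have := hp.two_le
        rw [pow_one] at *
        omega
    have hqn : ¬ q ∣ p := by
      intro h
      have := (Nat.prime_dvd_prime_iff_eq hq hp).mp h
      omega
    rcases structure_of_eq hn2 hcomp hf with h | ⟨h1, h2⟩
    · exfalso
      rw [hPn] at h
      have : q ∣ p ^ 2 := by
        rw [← h]
        exact Dvd.dvd.mul_right (dvd_pow_self q (by omega)) _
      exact hqn (hq.dvd_of_dvd_pow this)
    · rw [hPn] at h1 h2
      have hb' : b = 1 := by
        by_contra hc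
        exact h1 ((pow_dvd_pow p (by omega)).trans (Dvd.intro_left _ rfl))
      have hle := h2 q a hq (Dvd.intro _ rfl)
      have hlt : q ^ a < p := by
        rcases Nat.lt_or_eq_of_le hle with h | h
        · exact h
        · exfalso
          apply hqn
          rw [← h]
          exact dvd_pow_self q (by omega)
      refine ⟨hb', hlt, ?_⟩
      rw [hb', pow_one, div_P (by omega) hp hdivs] at hf
      exact (criterion hm2 hp hlt).mp hf
  · rintro ⟨rfl, hlt, h⟩
    rw [pow_one, div_P (by omega) hp hdivs]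
    exact (criterion hm2 hp hlt).mpr h

theorem result :
    (∀ m p : ℕ, 2 ≤ m → p.Prime → m < p →
      (f (m * p) = m * p / P (m * p) ↔
        ∀ j : ℕ, 1 ≤ j → j < m → m ∣ (m * p).choose (j * p))) ∧
    (∀ q p a b : ℕ, q.Prime → p.Prime → q < p → 1 ≤ a → 1 ≤ b →
      (f (q ^ a * p ^ b) = q ^ a * p ^ b / P (q ^ a * p ^ b) ↔
        b = 1 ∧ q ^ a < p ∧ ∀ j : ℕ, 1 ≤ j → j < q ^ a → q ^ a ∣ (q ^ a * p).choose (j * p))) ∧
    (∀ n : ℕ, 2 ≤ n → ¬ n.Prime → f n = n / P n →
      n = P n ^ 2 ∨ (¬ P n ^ 2 ∣ n ∧ ∀ q a : ℕ, q.Prime → q ^ a ∣ n → q ^ a ≤ P n)) ∧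
    (∀ m : ℕ, 2 ≤ m →
      {p : ℕ | p.Prime ∧ m < p ∧ f (m * p) = m * p / P (m * p)}.Infinite) := by
  have hdiv : ∀ m p : ℕ, 2 ≤ m → p.Prime → m < p → m * p / P (m * p) = m := by
    intro m p hm hp hmp
    apply div_P (by omega) hp
    intro r _ hrd
    exact (Nat.le_of_dvd (by omega) hrd).trans hmp.le
  refine ⟨?_, ?_, ?_, ?_⟩
  · intro m p hm hp hmp
    rw [hdiv m p hm hp hmp]
    exact criterion hm hp hmp
  · intro q p a b hq hp hqp ha hb
    exact two_primes hq hp hqp ha hb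
  · intro n hn hc hf
    exact structure_of_eq hn hc hf
  · intro m hm
    refine (infinite_primes hm).mono ?_
    rintro p ⟨hp, hmp, hf⟩
    exact ⟨hp, hmp, by rw [hdiv m p hm hp hmp]; exact hf⟩

end Pool.Agent.Results.MP_35d543_nt.CofactorCriterion
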